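import Mathlib
import Pool.Agent.N605.RB.Num
import Pool.Agent.N605.RB.Small

set_option autoImplicit false

/-!
# MP_eba1ef_gt: Rogers' bound for all convex bodies, and the dimensions five to ten

For every `d ≥ 3` every convex body in `ℝ^d`, symmetric or not, is covered by at most
`2^d (d log d + d log log d + (7/2) d)` translates of its interior. So the bound of Rogers
`2^d (d log d + d log log d + 5 d)` for centrally symmetric bodies holds for all bodies (Rogers and
Zong have the binomial coefficient `(2d choose d)` instead of `2^d` in general, and this was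
improved only by the factors `exp(-c √d)`, `exp(-c d / log^8 d)`, `exp (- c d)`); the starting
result `AllConvexBodies` has `2^d (6 + o(1)) d log d`.

In small dimensions the same procedure, with integer rounding, gives
`c_5 ≤ 642`, `c_6 ≤ 1628`, `c_7 ≤ 3968`, `c_8 ≤ 9398`, `c_9 ≤ 21793`, `c_10 ≤ 49709`
(known to the writer: `c_5 ≤ 933`, `c_6 ≤ 6137`, `c_7 ≤ 41377`, `c_8 ≤ 284096`; the starting result
gives `c_6 ≤ 5118`, `c_7 ≤ 12707`).

The proof. (a) Among the points `p` there is one such that the part `S` of `K - p` which is
symmetric about the origin has at least the fraction `2^(-d)` of the volume of `K` (the average of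
`|K ∩ (x - K)|` over `x ∈ 2 K`). A maximal subset `A` of `K` with differences outside `δ S` has at
most `(2 + 4/δ)^d` elements, and `K ⊆ A + δ S ⊆ A + δ (K - p)`. (b) For every subset `B` of `A` some
translate of `(1 - δ) K` contains a share `((1 - δ) / (2 - δ))^d` of the points of `B`: this is the
theorem `exists_heavy` of the library file `Pool.Agent.H2R2.Cov2`, by Cauchy-Schwarz. (c) Greedy
covering of `A` stopped when the number of the remaining points is at most `((2-δ)/(1-δ))^d`; the
total number of translates is at most `1 + F (1 + log (|A| / F))`, `F = ((2-δ)/(1-δ))^d`, with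
`|A| / F ≤ (2/δ)^d`. (d) `δ` is about `2 / (d (log d + 2))`. In dimensions five to ten the exact
number of the steps of the rounded recursion `n ↦ ⌊(1 - 1/F) n⌋` is computed.
-/

namespace Pool.Agent.Results.MP_eba1ef_gt.RogersBound

/-- **Main theorem.** Rogers' bound for all convex bodies, and explicit bounds in the dimensions
five to ten. -/
theorem result :
    (∀ d : ℕ, 3 ≤ d → ∀ K : Set (EuclideanSpace ℝ (Fin d)), Convex ℝ K → IsCompact K →
      (interior K).Nonempty →
      ∃ T : Finset (EuclideanSpace ℝ (Fin d)), K ⊆ ⋃ t ∈ T, (fun x => t + x) '' interior K ∧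
        (T.card : ℝ) ≤ 2 ^ d * (d * Real.log d + d * Real.log (Real.log d) + 7 / 2 * d)) ∧
    (∀ c ∈ [(5, 642), (6, 1628), (7, 3968), (8, 9398), (9, 21793), (10, 49709)],
      ∀ K : Set (EuclideanSpace ℝ (Fin c.1)), Convex ℝ K → IsCompact K →
      (interior K).Nonempty →
      ∃ T : Finset (EuclideanSpace ℝ (Fin c.1)), K ⊆ ⋃ t ∈ T, (fun x => t + x) '' interior K ∧
        T.card ≤ c.2) := by
  refine ⟨fun d hd K hK hKc hKi => Pool.Agent.N605.RB.rogers K hK hKc hKi d hd (by simp), ?_⟩
  intro c hc K hK hKc hKi
  simp only [List.mem_cons, List.not_mem_nil, or_false] at hc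
  rcases hc with rfl | rfl | rfl | rfl | rfl | rfl
  · exact Pool.Agent.N605.RB.dim5 K hK hKc hKi (by simp)
  · exact Pool.Agent.N605.RB.dim6 K hK hKc hKi (by simp)
  · exact Pool.Agent.N605.RB.dim7 K hK hKc hKi (by simp)
  · exact Pool.Agent.N605.RB.dim8 K hK hKc hKi (by simp)
  · exact Pool.Agent.N605.RB.dim9 K hK hKc hKi (by simp)
  · exact Pool.Agent.N605.RB.dim10 K hK hKc hKi (by simp)

end Pool.Agent.Results.MP_eba1ef_gt.RogersBound
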