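import Pool.Agent.N96.FF.Fin

set_option autoImplicit false

/-!
# MP_eba1ef_gt: polytopes with few facets; bodies whose extreme points lie on most of given hyperplanes

Let `c(K)` be the least number of translates of the interior of the convex body `K ⊂ ℝ^d` which cover
`K`. The cube has `2 d` facets and `c = 2^d`. It is proved, for all `d ≥ 2`:

* If there are `n` hyperplanes such that every extreme point of the convex body `K` lies on `ρ ≥ 1` of
  them with independent normals, where `n + 4 √(ρ log d) ≤ 2 ρ`, then `c(K) ≤ 2^(d-1)`. (The vertices of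
  the cube lie on one half of `n = 2 d` hyperplanes.)
* If `K` is a polytope with at most `2 d - 4 √(d log d)` facets, then `c(K) ≤ 2^(d-1)`. If the number
  of facets is at most `(2 - ε) d` then `c(K) ≤ 8 (d+1)^4 (2 exp (-ε²/4))^d`.
* The same holds if every vertex lies on all but at most `d - 4 √(d log d)` of the facets.
* The same holds if `K` has, besides arbitrarily many facets of which at most `p < d` pass through
  any vertex, at most `2 (d-p) - 4 √((d-p) log d)` facets. For instance, `K` may have arbitrarily many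
  pairwise disjoint facets and at most `2 (d-1) - 4 √((d-1) log d)` other ones, or `d - q` pairs of
  parallel facets and at most `2 q - 4 √(q log d)` other ones.
* More generally the space may be replaced by a convex set `C`, in this way: each extreme point of `K`
  is a relative interior point of a `ρ`-dimensional convex subset of `C` (e.g. if `C` is a cylinder
  with an arbitrary convex base of dimension `d - ρ`), and `d` is replaced by `ρ`.
* The most general form: `K` is any convex body, `H_1, ..., H_n` any hyperplanes (supporting or not),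
  every extreme point lies on all but at most `k` of them, and those on which it lies have normals
  of rank at least `ρ ≥ 1`, where `k + 4 √(ρ log d) ≤ ρ`. Example: every extreme point has at most
  `d/2 - 2 √(d log d)` nonzero coordinates, with respect to some basis. There are explicit bounds for all
  `k ≤ ρ`.
* In all cases `K` may be replaced by `K + L`, for all sets `L`, and some extreme points may be
  exceptional: extreme points of `K` in flats of dimensions `e_i` may be ignored at the price of
  `∑ beta (e_i)` translates, where `beta (0) = 1` and `beta (e) = O(2^e e log e)`.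

Proof. Let `w` be the uniform distribution on a finite family of patterns; the pattern of `v` is the
set of the hyperplanes through `v`. Suppose that `I` is an independent set of `j < ρ` hyperplanes, and
let `R` be the set of hyperplanes whose normals do not depend on those of `I`. A pattern containing
`I` contains at least `max (|R| - k) (ρ - j)` elements of `R`, hence some element of `R` lies in the
fraction `(ρ - j)/(ρ - j + k)` of these patterns. After `r` steps we have a flat of
dimension `d - r` which contains the fraction `(ρ choose r)/(ρ + k choose r)`. For `r = ρ - k` this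
beats `2^(-r)` by the factor `exp ((ρ-k)²/(4ρ))`. All but at most `(d+1) k` of the hyperplanes contain
all non-exceptional extreme points, so the number of patterns is at most `((d+1)k+1)^k`, and a greedy
choice gives few flats which contain all these extreme points. Now `c` is subadditive with respect to
convex hulls of lower-dimensional sets, and `c ≤ beta (e)` in dimension `e` (starting files).
-/

open scoped RealInnerProductSpace

namespace Pool.Agent.Results.MP_eba1ef_gt.FewFacets

open Module Pool.Agent.R753 Pool.Agent.N96.FF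

/-- `ℝ^n`. -/
abbrev E (n : ℕ) := EuclideanSpace ℝ (Fin n)

/-- Convex bodies in `ℝ^n`: compact convex sets with interior points. -/
def IsBody {n : ℕ} (K : Set (E n)) : Prop :=
  Convex ℝ K ∧ IsCompact K ∧ (interior K).Nonempty

/-- `K` is covered by at most `x` translates of its interior. -/
def Covered {n : ℕ} (x : ℝ) (K : Set (E n)) : Prop :=
  ∃ T : Finset (E n), (T.card : ℝ) ≤ x ∧ K ⊆ ⋃ t ∈ T, (fun y => t + y) '' interior K

/-- `K + L` -/
def sum {d : ℕ} (K L : Set (E d)) : Set (E d) := {z | ∃ x ∈ K, ∃ y ∈ L, z = x + y}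

/-- The set of those `i` for which the hyperplane `{x | ⟪a i, x⟫ = b i}` contains `v`. -/
def Through {d n : ℕ} (a : Fin n → E d) (b : Fin n → ℝ) (v : E d) : Set (Fin n) :=
  {i | ⟪a i, v⟫ = b i}

/-- The dimension of the linear span of the normals of the hyperplanes through `v`. -/
noncomputable def rank {d n : ℕ} (a : Fin n → E d) (b : Fin n → ℝ) (v : E d) : ℕ :=
  finrank ℝ (Submodule.span ℝ (a '' Through a b v))

/-- The number of hyperplanes which do not contain `v`. -/
noncomputable def missed {d n : ℕ} (a : Fin n → E d) (b : Fin n → ℝ) (v : E d) : ℕ :=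
  (Through a b v)ᶜ.ncard

/-- Polyhedra. -/
def Poly {d n : ℕ} (a : Fin n → E d) (b : Fin n → ℝ) : Set (E d) := {x | ∀ i, ⟪a i, x⟫ ≤ b i}

/-- `v` is a relative interior point of a convex subset of `C` of dimension at least `ρ`, in the
following sense: for all `w` in a `ρ`-dimensional space, `v` is the midpoint of a segment in `C` which is
parallel to `w`. -/
def FlatAt {d : ℕ} (C : Set (E d)) (ρ : ℕ) (v : E d) : Prop :=
  ∃ W : Submodule ℝ (E d), ρ ≤ finrank ℝ W ∧
    ∀ w ∈ W, ∃ ε : ℝ, 0 < ε ∧ v + ε • w ∈ C ∧ v - ε • w ∈ C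

/-- Finite systems of flats in `ℝ^d`: images of affine maps `g i : ℝ^(e i) → ℝ^d`. -/
structure Flats (d : ℕ) where
  /-- number of flats -/
  j : ℕ
  /-- dimensions -/
  e : Fin j → ℕ
  /-- parametrizations -/
  g : ∀ i, E (e i) →ᵃ[ℝ] E d

/-- `v` lies in one of the flats. -/
def Flats.Mem {d : ℕ} (G : Flats d) (v : E d) : Prop := ∃ i, v ∈ Set.range (G.g i)

/-- The bound `2^d` for `d ≤ 2`, `13` for `d = 3` and `3 · 2^d · d · log (2d² + 2d + 1)` for
`d ≥ 4`. -/
noncomputable def beta (d : ℕ) : ℝ :=
  if d ≤ 2 then 2 ^ d else if d = 3 then 13 else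
    3 * 2 ^ d * (d * Real.log (2 * d ^ 2 + 2 * d + 1))

/-- The price of a system of flats. -/
noncomputable def Flats.cost {d : ℕ} (G : Flats d) : ℝ := ∑ i, beta (G.e i)

lemma covered_sum {d : ℕ} {x y : ℝ} (hxy : x ≤ y) {K : Set (E d)} (L : Set (E d))
    (h : ∃ S : Finset (E d), (S.card : ℝ) ≤ x ∧ K ⊆ ⋃ v ∈ S, (fun x => v + x) '' interior K) :
    Covered y (sum K L) := by
  obtain ⟨S, hS, hc⟩ := h
  have h1 := cover_add L hc
  have h2 : Set.image2 (· + ·) K L = sum K L := by
    ext z
    constructor
    · rintro ⟨x, hx, y, hy, rfl⟩; exact ⟨x, hx, y, hy, rfl⟩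
    · rintro ⟨x, hx, y, hy, rfl⟩; exact ⟨x, hx, y, hy, rfl⟩
  rw [h2] at h1
  exact ⟨S, hS.trans hxy, h1⟩

/-- **Main theorem.** -/
theorem result :
    -- (1) bodies whose extreme points lie on most of given hyperplanes
    (∀ (d n k ρ : ℕ) (a : Fin n → E d) (b : Fin n → ℝ) (G : Flats d) (K L : Set (E d)), 0 < ρ →
      IsBody K → (∀ v ∈ K.extremePoints ℝ, ¬ G.Mem v → missed a b v ≤ k ∧ ρ ≤ rank a b v) →
      (2 ≤ d → (k : ℝ) + 4 * √(ρ * Real.log d) ≤ ρ → Covered (2 ^ (d - 1) + G.cost) (sum K L)) ∧
      (2 ≤ d → (n : ℝ) + 4 * √(ρ * Real.log d) ≤ 2 * ρ → Covered (2 ^ (d - 1) + G.cost) (sum K L)) ∧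
      (k ≤ ρ → Covered (8 * ((d : ℝ) + 1) ^ 4 * (2 ^ d * Real.exp (-(((ρ : ℝ) - k) ^ 2 / (4 * ρ))))
        + G.cost) (sum K L)) ∧
      (∀ r ≤ ρ, Covered ((k * Real.log ((d + 1) * k + 1) *
        ((ρ + k).choose r / ρ.choose r) + 1) * beta (d - r) + G.cost) (sum K L))) ∧
    -- (2) intersections of few half-spaces, half-spaces which do not matter much, and a convex set
    (∀ (d n N p ρ : ℕ) (a : Fin n → E d) (b : Fin n → ℝ) (a' : Fin N → E d) (b' : Fin N → ℝ)
      (C : Set (E d)) (G : Flats d) (K L : Set (E d)), 2 ≤ d → Convex ℝ C →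
      K = C ∩ Poly a b ∩ Poly a' b' → IsBody K →
      (∀ v ∈ K.extremePoints ℝ, ¬ G.Mem v → FlatAt C ρ v ∧ rank a' b' v ≤ p) → p < ρ →
      (n : ℝ) + 4 * √(((ρ : ℝ) - p) * Real.log d) ≤ 2 * ((ρ : ℝ) - p) →
      Covered (2 ^ (d - 1) + G.cost) (sum K L)) ∧
    -- (3) polytopes
    (∀ (d n k : ℕ) (a : Fin n → E d) (b : Fin n → ℝ), 2 ≤ d → IsBody (Poly a b) →
      ∀ L : Set (E d),
      ((n : ℝ) + 4 * √(d * Real.log d) ≤ 2 * d → Covered (2 ^ (d - 1)) (sum (Poly a b) L)) ∧
      ((∀ v ∈ (Poly a b).extremePoints ℝ, missed a b v ≤ k) →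
        (k : ℝ) + 4 * √(d * Real.log d) ≤ d → Covered (2 ^ (d - 1)) (sum (Poly a b) L)) ∧
      (∀ (p : ℕ) (S : Finset (Fin n)), p < d →
        (∀ v ∈ (Poly a b).extremePoints ℝ, (Through a b v \ S).ncard ≤ p) →
        (S.card : ℝ) + 4 * √(((d : ℝ) - p) * Real.log d) ≤ 2 * ((d : ℝ) - p) →
        Covered (2 ^ (d - 1)) (sum (Poly a b) L))) := by
  have hG : ∀ {d : ℕ} (G : Flats d) (v : E d), (∀ i, v ∉ Set.range (G.g i)) → ¬ G.Mem v :=
    fun G v h hm => by obtain ⟨i, hi⟩ := hm; exact h i hi
  refine ⟨?_, ?_, ?_⟩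
  · intro d n k ρ a b G K L hρ hK hY
    obtain ⟨hc, hk, hi⟩ := hK
    have hY' : ∀ v ∈ K.extremePoints ℝ, (∀ i, v ∉ Set.range (G.g i)) →
        {i | ⟪a i, v⟫ ≠ b i}.ncard ≤ k ∧
        ρ ≤ finrank ℝ (Submodule.span ℝ (a '' {i | ⟪a i, v⟫ = b i})) :=
      fun v hv hvX => hY v hv (hG G v hvX)
    refine ⟨fun hd h => ?_, fun hd h => ?_, fun h => ?_, fun r hr => ?_⟩
    · exact covered_sum le_rfl L (half hd hρ a b hc hk hi G.e G.g hY' h)
    · exact covered_sum le_rfl L (half_n hd hρ a b hc hk hi G.e G.g
        (fun v hv hvX => (hY' v hv hvX).2) h)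
    · exact covered_sum le_rfl L (closed hρ h a b hc hk hi G.e G.g hY')
    · refine covered_sum (le_of_eq ?_) L (main1 hr a b hc hk hi G.e G.g hY')
      rw [add_comm]; rfl
  · intro d n N p ρ a b a' b' C G K L hd hC hKC hK hY hp h
    obtain ⟨hc, hk, hi⟩ := hK
    refine covered_sum le_rfl L (inter hd a b a' b' C hC ?_ hc hk hi G.e G.g ?_ hp h)
    · rw [hKC]
      ext x
      simp only [Poly, Set.mem_inter_iff, Set.mem_ofPred_eq]
      tauto
    · intro v hv hvX
      exact hY v hv (hG G v hvX)
  · intro d n k a b hd hK L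
    obtain ⟨hc, hk, hi⟩ := hK
    have hsum : ∀ e : Fin 0 → ℕ, (2 : ℝ) ^ (d - 1) + ∑ i, HS.beta (e i) = 2 ^ (d - 1) := by
      intro e; simp
    refine ⟨fun h => ?_, fun hm h => ?_, fun p S hp hS h => ?_⟩
    · refine covered_sum (hsum _).le L (half_n (j := 0) (ρ := d) hd (by omega) a b hc hk hi
        (fun i => i.elim0) (fun i => i.elim0) (fun v hv _ => rank_poly a b v hv) h)
    · exact covered_sum (hsum _).le L (half (j := 0) (k := k) (ρ := d) hd (by omega) a b hc hk hi
        (fun i => i.elim0) (fun i => i.elim0) (fun v hv _ => ⟨hm v hv, rank_poly a b v hv⟩) h)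
    · -- the subfamilies `S` and its complement
      classical
      let φ : Fin S.card ≃ {i // i ∈ S} := S.equivFin.symm
      let ι : Fin S.card → Fin n := fun i => (φ i : Fin n)
      have hιs : ∀ i ∈ S, ∃ i', ι i' = i := fun i hi => ⟨φ.symm ⟨i, hi⟩, by
        show ((φ (φ.symm ⟨i, hi⟩) : {i // i ∈ S}) : Fin n) = i
        rw [Equiv.apply_symm_apply]⟩
      have hkey : ∀ v ∈ (Poly a b).extremePoints ℝ, d - p ≤
          finrank ℝ (Submodule.span ℝ ((a ∘ ι) '' {i | ⟪(a ∘ ι) i, v⟫ = (b ∘ ι) i})) := by
        intro v hv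
        have h1 : d ≤ finrank ℝ (Submodule.span ℝ (a '' {i | ⟪a i, v⟫ = b i})) :=
          rank_poly a b v hv
        have hfin : (Through a b v \ S).Finite := Set.toFinite _
        have h4 : Submodule.span ℝ (a '' {i | ⟪a i, v⟫ = b i}) ≤
            Submodule.span ℝ ((a ∘ ι) '' {i | ⟪(a ∘ ι) i, v⟫ = (b ∘ ι) i}) ⊔
              Submodule.span ℝ (a '' (Through a b v \ S)) := by
          rw [Submodule.span_le]
          rintro _ ⟨i, hi, rfl⟩
          by_cases hiS : i ∈ S
          · obtain ⟨i', rfl⟩ := hιs i hiS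
            exact Submodule.mem_sup_left (Submodule.subset_span ⟨i', hi, rfl⟩)
          · exact Submodule.mem_sup_right (Submodule.subset_span ⟨i, ⟨hi, hiS⟩, rfl⟩)
        have h5 : finrank ℝ (Submodule.span ℝ (a '' (Through a b v \ S))) ≤ p := by
          have h : ((hfin.toFinset.image a : Finset (E d)) : Set (E d)) =
              a '' (Through a b v \ S) := by rw [Finset.coe_image, Set.Finite.coe_toFinset]
          rw [← h]
          refine (finrank_span_finset_le_card _).trans (Finset.card_image_le.trans ?_)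
          rw [← Set.ncard_eq_toFinset_card _ hfin]
          exact hS v hv
        have h6 := Submodule.finrank_mono h4
        have h7 := Submodule.finrank_add_le_finrank_add_finrank
          (Submodule.span ℝ ((a ∘ ι) '' {i | ⟪(a ∘ ι) i, v⟫ = (b ∘ ι) i}))
          (Submodule.span ℝ (a '' (Through a b v \ S)))
        omega
      have hdp : ((d - p : ℕ) : ℝ) = (d : ℝ) - p := by rw [Nat.cast_sub hp.le]
      refine covered_sum (hsum _).le L (half_n (j := 0) (ρ := d - p) hd (by omega) (a ∘ ι) (b ∘ ι)
        hc hk hi (fun i => i.elim0) (fun i => i.elim0) (fun v hv _ => hkey v hv) ?_)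
      rw [hdp]
      exact h

end Pool.Agent.Results.MP_eba1ef_gt.FewFacets
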