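import Pool.Agent.N148.HD.Cor

set_option autoImplicit false

/-!
# MP_eba1ef_gt: bodies given by constraints on pairs of coordinates

The conjecture `c(K) ≤ 2^n` for bodies symmetric about the coordinate hyperplanes is known in
dimensions `3` and `4` and for special classes in higher dimensions.  We prove it, in every
dimension, for the bodies which are determined by their sections with the coordinate planes
(equivalently: finite or infinite intersections of conditions on pairs `(|x_i|, |x_j|)`), for
instance for all polytopes symmetric about the coordinate hyperplanes such that every facet normal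
has at most two nonzero coordinates (such as `|x_i| + |x_j| ≤ 1` for the edges `ij` of an arbitrary
graph), and more generally for intersections of such bodies with bodies which are orthogonal to
the coordinate hyperplanes (such as ellipsoids with the coordinate axes as axes).  The same is
proved for sums of convex bodies: if `g_j` is the gauge of `C_j ⊆ ℝ^(d_j)` and `K` is given by
finitely many such conditions on the vector `(g_1 (x_1), …, g_k (x_k))`, then
`c(K) ≤ ∏ c(C_j)`; there is no assumption on the number `k` of the summands and on the dimensions.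

Proof: let `K` be symmetric about the coordinate hyperplanes.  A pair `(i, j)` is called *sharp* if
a supporting half space of the body `K` in the coordinate direction `i` can be tilted towards `j`:
`x_i + c |x_j| ≤ h_i` on `K`, for some `c > 0`, where `h_i` is the maximum of `x_i`.  Then at a
point with `x_i = h_i` (thus `x_j = 0`) a direction of illumination must not have a large
`j`-coordinate in comparison with its `i`-coordinate; on the other hand, if a pair is not sharp,
one can see that a planar condition is no obstruction at the points with `x_j = 0`, after scaling,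
if `x_j` is moved a little.  It turns out that it suffices to find `2^n` directions
`(± ε^(ρ_σ(i)))_i`, one for each sign pattern `σ`, such that for every set `S` of coordinates and
every sign pattern `τ` on `S` there is a pattern `σ` which extends `τ` and whose weights satisfy:
if `i ∈ S` has no sharp pair `(i, j)` with `j ∈ S`, then `i` has larger weight than all `j` such
that `(i, j)` is sharp.  Such rank functions exist for every irreflexive relation on a finite set
(induction on the number of coordinates, in which one coordinate may have no sign).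
-/

namespace Pool.Agent.Results.MP_eba1ef_gt.PlanarConstraints

/-- `Covered N K` means that `K` is covered by at most `N` translates of its interior, i.e.
`c(K) ≤ N`. -/
def Covered {V : Type*} [TopologicalSpace V] [Add V] (N : ℕ) (K : Set V) : Prop :=
  ∃ T : Finset V, T.card ≤ N ∧ K ⊆ ⋃ t ∈ T, (fun x => t + x) '' interior K

/-- `P` is solid: if `x ∈ P` and `y i` lies between `0` and `x i` for all `i`, then `y ∈ P`. -/
def Solid {k : ℕ} (P : Set (Fin k → ℝ)) : Prop :=
  ∀ x ∈ P, ∀ y : Fin k → ℝ, (∀ i, y i ∈ Set.uIcc 0 (x i)) → y ∈ P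

/-- `P` is a condition on two coordinates. -/
def Planar {k : ℕ} (P : Set (Fin k → ℝ)) : Prop :=
  ∃ i j : Fin k, ∀ x ∈ P, ∀ y : Fin k → ℝ, y i = x i → y j = x j → y ∈ P

/-- `P` is orthogonal to the coordinate hyperplanes: if `φ ≤ 1` supports `P` at a point `u` with
`u j = 0`, then `φ j = 0`. -/
def Orthogonal {k : ℕ} (P : Set (Fin k → ℝ)) : Prop :=
  ∀ u ∈ P, ∀ φ : Fin k → ℝ, (∀ y ∈ P, ∑ i, φ i * y i ≤ 1) → ∑ i, φ i * u i = 1 →
    ∀ j, u j = 0 → φ j = 0

/-- `P` is symmetric about the coordinate hyperplanes. -/
def Unconditional {k : ℕ} (P : Set (Fin k → ℝ)) : Prop :=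
  ∀ x ∈ P, ∀ y : Fin k → ℝ, (∀ i, |y i| = |x i|) → y ∈ P

/-- (1) Let `C j ⊆ ℝ^(d j)`, `j < k`, be convex bodies with `0` in the interior, covered by at most
`N j` translates of their interiors, with `2 ≤ N j`.  Let `P b ⊆ ℝ^k`, `b < m`, be closed convex
solid neighbourhoods of `0`, each of which is planar or orthogonal to the coordinate hyperplanes.
If the set `K` of the `x` such that the vector of the gauges `g_j (x_j)` is in all `P b` is bounded,
then `K` is a convex body and it is covered by at most `∏ N j` translates of its interior.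

(2) If a bounded set `K ⊆ ℝ^n` is the intersection of finitely many closed convex neighbourhoods of
`0` symmetric about the coordinate hyperplanes, each of which is planar or orthogonal to the
coordinate hyperplanes, then `c(K) ≤ 2^n`.

(3) If a convex body `K ⊆ ℝ^n` is symmetric about the coordinate hyperplanes and is determined by
its sections with the coordinate planes (`x ∈ K` as soon as, for all `i` and `j`, the point
with the coordinates `x_i`, `x_j` and with the other coordinates `0` is in `K`), then
`c(K) ≤ 2^n`. -/
theorem result :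
    (∀ (k m : ℕ) (d : Fin k → ℕ) (C : ∀ j, Set (EuclideanSpace ℝ (Fin (d j)))),
      (∀ j, Convex ℝ (C j)) → (∀ j, IsCompact (C j)) → (∀ j, 0 ∈ interior (C j)) →
      ∀ N : Fin k → ℕ, (∀ j, 2 ≤ N j) → (∀ j, Covered (N j) (C j)) →
      ∀ P : Fin m → Set (Fin k → ℝ), (∀ b, IsClosed (P b)) → (∀ b, Convex ℝ (P b)) →
      (∀ b, 0 ∈ interior (P b)) → (∀ b, Solid (P b)) → (∀ b, Planar (P b) ∨ Orthogonal (P b)) →
      ∀ K : Set (∀ j, EuclideanSpace ℝ (Fin (d j))),
      K = {x | ∀ b, (fun j => gauge (C j) (x j)) ∈ P b} → Bornology.IsBounded K →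
      Convex ℝ K ∧ IsCompact K ∧ 0 ∈ interior K ∧ Covered (∏ j, N j) K) ∧
    (∀ (n m : ℕ) (P : Fin m → Set (Fin n → ℝ)), (∀ b, IsClosed (P b)) → (∀ b, Convex ℝ (P b)) →
      (∀ b, 0 ∈ interior (P b)) → (∀ b, Unconditional (P b)) →
      (∀ b, Planar (P b) ∨ Orthogonal (P b)) →
      ∀ K : Set (EuclideanSpace ℝ (Fin n)), K = {x | ∀ b, (fun i => x i) ∈ P b} →
      Bornology.IsBounded K →
      Convex ℝ K ∧ IsCompact K ∧ 0 ∈ interior K ∧ Covered (2 ^ n) K) ∧
    (∀ (n : ℕ) (K : Set (EuclideanSpace ℝ (Fin n))), Convex ℝ K → IsCompact K →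
      (interior K).Nonempty →
      (∀ x ∈ K, ∀ y : EuclideanSpace ℝ (Fin n), (∀ i, |y i| = |x i|) → y ∈ K) →
      (∀ x : EuclideanSpace ℝ (Fin n), (∀ i j : Fin n, ∃ y ∈ K,
        y i = x i ∧ y j = x j ∧ ∀ l, l ≠ i → l ≠ j → y l = 0) → x ∈ K) →
      Covered (2 ^ n) K) := by
  refine ⟨fun k m d C hC hCk hC0 N hN hcov P hPcl hPc hP0 hPs hPO K hK hKb =>
      Pool.Agent.N148.HD.main C hC hCk hC0 N hN hcov P hPc hPcl hP0 hPs hPO K hK hKb, ?_, ?_⟩
  · intro n m P hPcl hPc hP0 hPu hPO K hK hKb
    set K' : Set (Fin n → ℝ) := WithLp.ofLp '' K with hK'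
    have he : ∀ x : Fin n → ℝ, x ∈ K' ↔ WithLp.toLp 2 x ∈ K := by
      intro x
      constructor
      · rintro ⟨y, hy, rfl⟩
        exact hy
      · intro h
        exact ⟨_, h, rfl⟩
    have hK'' : K' = {x | ∀ b, x ∈ P b} := by
      ext x
      rw [he, hK]
      rfl
    have hKb' : Bornology.IsBounded K' :=
      (EuclideanSpace.equiv (Fin n) ℝ).toContinuousLinearMap.lipschitz.isBounded_image hKb
    obtain ⟨h1, h2, h3, h4⟩ := Pool.Agent.N148.HD.unc_main P hPc hPcl hP0 hPu hPO K' hK'' hKb'
    have hpre : K = (EuclideanSpace.equiv (Fin n) ℝ) ⁻¹' K' := by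
      ext x
      rw [Set.mem_preimage]
      exact (he _).symm
    refine ⟨?_, ?_, ?_, ?_⟩
    · rw [hpre]
      exact h1.linear_preimage (EuclideanSpace.equiv (Fin n) ℝ).toLinearMap
    · rw [hpre]
      exact (EuclideanSpace.equiv (Fin n) ℝ).toHomeomorph.isCompact_preimage.2 h2
    · rw [hpre]
      have := (EuclideanSpace.equiv (Fin n) ℝ).toHomeomorph.preimage_interior K'
      have h5 : (0 : EuclideanSpace ℝ (Fin n)) ∈
          (EuclideanSpace.equiv (Fin n) ℝ).toHomeomorph ⁻¹' interior K' := h3
      rw [this] at h5
      exact h5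
    · rw [Fintype.card_fin] at h4
      exact Pool.Agent.N148.HD.transfer K _ h4
  · intro n K hKc hKcp hKi hu hpl
    refine Pool.Agent.N148.HD.transfer K _ ?_
    set K' : Set (Fin n → ℝ) := WithLp.ofLp '' K with hK'
    have he : ∀ x : Fin n → ℝ, x ∈ K' ↔ WithLp.toLp 2 x ∈ K := by
      intro x
      constructor
      · rintro ⟨y, hy, rfl⟩
        exact hy
      · intro h
        exact ⟨_, h, rfl⟩
    have himg : K' = (EuclideanSpace.equiv (Fin n) ℝ) '' K := rfl
    have hc' : Convex ℝ K' := by
      rw [himg]
      exact hKc.linear_image (EuclideanSpace.equiv (Fin n) ℝ).toLinearMap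
    have hu' : Pool.Agent.N148.HD.Unc K' := by
      intro x hx y hy
      rw [he] at hx ⊢
      exact hu _ hx _ hy
    have h := Pool.Agent.N148.HD.sections_main K' hc'
      (hKcp.image (EuclideanSpace.equiv (Fin n) ℝ).continuous)
      (by
        obtain ⟨x, hx⟩ := hKi
        have := (EuclideanSpace.equiv (Fin n) ℝ).toHomeomorph.image_interior K
        refine ⟨WithLp.ofLp x, ?_⟩
        rw [himg]
        have h5 : (EuclideanSpace.equiv (Fin n) ℝ) x ∈
          (EuclideanSpace.equiv (Fin n) ℝ).toHomeomorph '' interior K := ⟨x, hx, rfl⟩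
        rw [this] at h5
        exact h5) hu'
      (fun x hx => by
        rw [he]
        refine hpl _ fun i j => ?_
        obtain ⟨y, hy, hy2⟩ := hx i j
        classical
        refine ⟨WithLp.toLp 2 (fun l => if l = i ∨ l = j then x l else 0), ?_, ?_, ?_, ?_⟩
        · rw [← he]
          refine Pool.Agent.N148.HD.unc_le hc' hu' y hy _ fun l => ?_
          by_cases hl : l = i ∨ l = j
          · rw [if_pos hl]
            exact hy2 l hl
          · rw [if_neg hl, abs_zero]
            exact abs_nonneg _
        · show (if i = i ∨ i = j then x i else 0) = x i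
          rw [if_pos (Or.inl rfl)]
        · show (if j = i ∨ j = j then x j else 0) = x j
          rw [if_pos (Or.inr rfl)]
        · intro l h1 h2
          show (if l = i ∨ l = j then x l else 0) = 0
          rw [if_neg (by tauto)])
    rwa [Fintype.card_fin] at h

end Pool.Agent.Results.MP_eba1ef_gt.PlanarConstraints
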