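import Mathlib
import Pool.Agent.N555.RZ.Refl3
import Pool.Agent.N555.RZ.MainB

set_option autoImplicit false

/-!
# MP_eba1ef_gt: convex bodies with many symmetries, and finite cotype

Let `K` be a convex body in `ℝ^d` with `0` in its interior, `g` its gauge, and `-K ⊆ a K`. We say
that `K` is `D`-spread if for every vector `w ≠ 0` there is a linear functional `ψ ≠ 0` such that
`D · E (Dg(z)[w])² · E ψ(z)² ≤ ψ(w)²`, where `z` is a random point of `K`: in the Euclidean structure
given by the covariance of `K`, no direction carries more than the part `1/D` of the gradient of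
the gauge. This holds

* for `D / a²` if the linear symmetries of `K` have no invariant subspace of a dimension less than
  `D` other than `0` (in particular for `d / a²` if they act irreducibly),
* for `d / (16 a)` if `K` has hyperplane symmetries (in possibly oblique directions) the directions
  of which span `ℝ^d`.

We prove that for such bodies either `c(K) < 2^d` or there is a cube-like linear image: if
`10^64 n^4 a^8 log(d+1)^10 ≤ D` then either `K` is covered by less than `2^d` translates of its
interior or there is a linear map `p` to `ℝ^n` with `[-κ, κ]^n ⊆ p(K) ⊆ [-a, 1]^n`,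
`κ = 1 / (10^10 a log(d+1)²)`. So for bounded `a` and, for instance, an irreducible symmetry
group there is such an image in dimension `n ≥ c d^(1/4) / log(d)^(5/2)`.

For centrally symmetric `K` there are then also vectors `x_1, ..., x_n` with
`g(x_i) ≥ 1 / (10^10 log(d+1)²)` and the average of `g(± x_1 ± ... ± x_n)²` at most
`(13 log(d+1))²`. It follows that `c(K) < 2^d` if the norm `g` has cotype `q ≥ 2` with the constant
`C ≥ 1` and `(10^7 C log(d+1))^(17 q) ≤ D`. So for given `q` and `C`, and for irreducible symmetry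
groups for instance, the conjecture (with strict inequality) holds in all sufficiently high
dimensions: for the unit balls of all `d`-dimensional subspaces of `L_q`, `q < ∞`, or of the
Schatten class `S_q`, etc. with such symmetries.

The proof. By the theorem `AsymmetricThinSlabs` of the starting files we may assume that the average
over `z, z' ∈ K` of `|Dg(z)[z']|` is at least `ρ = 1 / (46080 log(d+1))`. Let `f_i = Dg(ζ_i) / a`
for independent random points `ζ_i` of the set `{ζ ∈ K : E f_ζ² ≥ ρ² / (2a²)}`, `i = 1, ..., 2n`.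
As `K` is spread, the kernel `k(z, z') = E_ζ f_ζ(z) f_ζ(z')` is a bilinear form with a small
Hilbert-Schmidt norm; by the exponential decay of the tails of linear functionals (Brunn-Minkowski)
all its moments are small. Let `N(δ) = E_z ∏ (1 + δ_i f_i(z))` be the masses of the Riesz products,
`δ_i = ± 1`. The average over `δ` and `ζ` of `(N(δ) - 1)²` is `E (1 + k(z, z'))^(2n) - 1`, and
similarly for the functionals `E_z δ_i f_i(z) ∏ (1 + δ_j f_j(z))`, which are close to `E f_i²`. So
there are `ζ_i` such that for more than half of the `δ` the barycenter `z_δ` of the Riesz product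
satisfies `δ_i f_i(z_δ) ≥ ρ² / (4 a²)` for all `i`. By the Sauer-Shelah lemma there are `n`
indices such that all the sign patterns on them occur. This gives the cube-like image. In the
symmetric case let `x_i` be the average of `δ_i z_δ`; the Rademacher projection has the norm
`O(log d)` (Pisier; it is proved here by truncation in degree and Bernstein's inequality).

For a reflection in the direction `u` (a unit vector) the derivative `Dg(z)[u]` is small in the
mean: where it is `≥ θ`, the translation by `u / (d θ)` moves a constant part of the points out of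
`K`, but the part of the half body which leaves it under a translation by `s u` has the same
volume as the slab of the width `s` at the hyperplane of symmetry. This gives a weak type estimate,
hence `E (Dg(z)[u])² ≤ 16 a / d`. The directions of the symmetries are eigenvectors of the
quadratic form `E (Dg(z)[w])²`; if they span then all eigenvalues are at most `16 a / d`.
-/

namespace Pool.Agent.Results.MP_eba1ef_gt.SpreadFiniteCotype

open MeasureTheory
open scoped Pointwise

/-- The space `ℝ^d`. -/
abbrev Sp (d : ℕ) : Type := EuclideanSpace ℝ (Fin d)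

/-- `K` is a convex body with `0` in its interior and `-K ⊆ a K`, `a ≥ 1`. -/
def IsBody {d : ℕ} (K : Set (Sp d)) (a : ℝ) : Prop :=
  Convex ℝ K ∧ IsCompact K ∧ 0 ∈ interior K ∧ 1 ≤ a ∧ -K ⊆ a • K

/-- `K` is `D`-spread: for every vector `w ≠ 0` there is a linear functional `ψ ≠ 0` with
`D · E (Dg(z)[w])² · E ψ(z)² ≤ ψ(w)²`, where `g` is the gauge of `K` and `E` is the average over
`z ∈ K`. -/
def IsSpread {d : ℕ} (K : Set (Sp d)) (D : ℝ) : Prop :=
  ∀ w : Sp d, w ≠ 0 → ∃ ψ : Sp d →L[ℝ] ℝ, ψ ≠ 0 ∧
    D * (⨍ z in K, (fderiv ℝ (gauge K) z w) ^ 2) * (⨍ z in K, (ψ z) ^ 2) ≤ (ψ w) ^ 2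

/-- `K` is covered by less than `2^d` translates of its interior. -/
def CoveredByFewer {d : ℕ} (K : Set (Sp d)) : Prop :=
  ∃ T : Finset (Sp d), K ⊆ ⋃ t ∈ T, (fun x => t + x) '' interior K ∧ T.card < 2 ^ d

/-- `K` has a linear image in `ℝ^n` between `[-κ, κ]^n` and `[-a, 1]^n`. -/
def HasCubicImage {d : ℕ} (K : Set (Sp d)) (n : ℕ) (a κ : ℝ) : Prop :=
  ∃ p : Sp d →L[ℝ] Sp n, (∀ y : Sp n, (∀ i, |y i| ≤ κ) → y ∈ p '' K) ∧
    ∀ x ∈ K, ∀ i, -a ≤ p x i ∧ p x i ≤ 1

/-- The mean square over all signs of the gauge of `± x_1 ± ... ± x_m`. -/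
noncomputable def signMean {d m : ℕ} (K : Set (Sp d)) (x : Fin m → Sp d) : ℝ :=
  (∑ δ : Fin m → Bool, gauge K (∑ i, (if δ i then (1 : ℝ) else -1) • x i) ^ 2) / 2 ^ m

/-- The gauge of `K` has cotype `q` with the constant `C`. -/
def HasCotype {d : ℕ} (K : Set (Sp d)) (q C : ℝ) : Prop :=
  ∀ (m : ℕ) (x : Fin m → Sp d), (∑ i, gauge K (x i) ^ q) ^ (1 / q) ≤ C * Real.sqrt (signMean K x)

/-- The invertible linear maps in `G` preserve `K`, and every subspace other than `0` which they
leave invariant has at least the dimension `D`. -/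
def HasSymmetries {d : ℕ} (K : Set (Sp d)) (G : Set (Sp d ≃ₗ[ℝ] Sp d)) (D : ℕ) : Prop :=
  (∀ T ∈ G, T '' K = K) ∧
    ∀ W : Submodule ℝ (Sp d), W ≠ ⊥ → (∀ T ∈ G, ∀ x ∈ W, T x ∈ W) → D ≤ Module.finrank ℝ W

/-- `K` is symmetric about a hyperplane in the direction `u`: an invertible linear map `T` with
`T(K) = K` maps `u` to `-u` and moves every point only in the direction `u`. -/
def IsReflected {d : ℕ} (K : Set (Sp d)) (u : Sp d) : Prop :=
  ∃ T : Sp d ≃ₗ[ℝ] Sp d, T '' K = K ∧ T u = -u ∧ ∀ x, ∃ c : ℝ, T x = x + c • u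

theorem spread_iff {d : ℕ} (K : Set (EuclideanSpace ℝ (Fin d))) (D : ℝ) :
    IsSpread K D ↔ Pool.Agent.N555.RZ.Spr K D := by
  have h : ∀ f : EuclideanSpace ℝ (Fin d) → ℝ,
      ⨍ z in K, f z = ∫ z, f z ∂(Pool.Agent.N555.RZ.mP K) := by
    intro f
    rw [average_eq', Measure.restrict_apply_univ]
    rfl
  simp only [IsSpread, Pool.Agent.N555.RZ.Spr, h]

/-- **Main theorem.** -/
theorem result (d : ℕ) (hd : 2 ≤ d) (K : Set (Sp d)) (a : ℝ) (hK : IsBody K a) :
    -- covering, or a cube-like image
    (∀ (n : ℕ) (D : ℝ), 1 ≤ n → IsSpread K D →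
      10 ^ 64 * (n : ℝ) ^ 4 * a ^ 8 * Real.log (d + 1) ^ 10 ≤ D →
      CoveredByFewer K ∨ HasCubicImage K n a (1 / (10 ^ 10 * a * Real.log (d + 1) ^ 2))) ∧
    -- symmetric bodies: covering, or many vectors with small signed sums
    (∀ (n : ℕ) (D : ℝ), 1 ≤ n → a = 1 → IsSpread K D →
      10 ^ 64 * (n : ℝ) ^ 4 * Real.log (d + 1) ^ 10 ≤ D →
      CoveredByFewer K ∨ ∃ x : Fin n → Sp d,
        (∀ i, 1 / (10 ^ 10 * Real.log (d + 1) ^ 2) ≤ gauge K (x i)) ∧
        signMean K x ≤ (13 * Real.log (d + 1)) ^ 2) ∧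
    -- symmetric bodies of finite cotype
    (∀ q C D : ℝ, 2 ≤ q → 1 ≤ C → a = 1 → IsSpread K D → HasCotype K q C →
      (10 ^ 7 * C * Real.log (d + 1)) ^ (17 * q) ≤ D → CoveredByFewer K) ∧
    -- symmetries without small invariant subspaces
    (∀ (D : ℕ) (G : Set (Sp d ≃ₗ[ℝ] Sp d)), HasSymmetries K G D → IsSpread K (D / a ^ 2)) ∧
    -- hyperplane symmetries
    (Submodule.span ℝ {u | IsReflected K u} = ⊤ → IsSpread K (d / (16 * a))) := by
  obtain ⟨hKv, hKc, hKi, ha, hsym⟩ := hK
  have hsym1 : a = 1 → ∀ x ∈ K, -x ∈ K := by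
    intro h x hx
    have h1 := hsym (Set.neg_mem_neg.mpr hx)
    rwa [h, one_smul] at h1
  refine ⟨?_, ?_, ?_, ?_, ?_⟩
  · intro n D hn hspr hD
    rcases Pool.Agent.N555.RZ.mainA n D hd hn hKv hKc hKi a ha hsym ((spread_iff K D).mp hspr) hD
      with h | ⟨φ, h1, h2⟩
    · exact Or.inl h
    · exact Or.inr (Pool.Agent.N555.RZ.cube_of_signs n hKv hKc a _ (by linarith) hsym φ h1 h2)
  · intro n D hn h1 hspr hD
    rcases Pool.Agent.N555.RZ.mainB n D hd hn hKv hKc hKi (hsym1 h1) ((spread_iff K D).mp hspr) hD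
      with h | ⟨x, h1, h2⟩
    · exact Or.inl h
    · refine Or.inr ⟨x, h1, ?_⟩
      unfold signMean
      rw [div_le_iff₀ (by positivity), mul_comm]
      exact h2
  · intro q C D hq hC h1 hspr hcot hD
    exact Pool.Agent.N555.RZ.mainC D hd hKv hKc hKi (hsym1 h1) ((spread_iff K D).mp hspr) q C hq hC
      (fun m x => hcot m x) hD
  · intro D G hG
    rw [spread_iff]
    exact Pool.Agent.N555.RZ.group_spr D (by omega) hKv hKc hKi a ha hsym G hG.1 hG.2
  · intro hspan
    rw [spread_iff]
    exact Pool.Agent.N555.RZ.refl_spr hd hKv hKc hKi a ha hsym hspan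

end Pool.Agent.Results.MP_eba1ef_gt.SpreadFiniteCotype
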